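import Mathlib.Analysis.Convex.Combination
import Mathlib.Data.Real.Basic
import Mathlib.Tactic

/-!
# Cutting a polytope given by a list of points

`Cov L K B`: the image of `K` under `L` lies in the convex hull of the finite set `B`, in terms of linear functionals.
Cutting by a half-space `c · l ≤ h`: keep the points of `B` in the half-space and add the crossing points (or points
further outside on the same segments).
-/

set_option autoImplicit false

namespace Pool.Agent.Helper20.CUT

/-- the product of two families of four numbers -/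
def dp (c b : Fin 4 → ℝ) : ℝ := ∑ i, c i * b i

theorem dp_add (c b b' : Fin 4 → ℝ) : dp c (b + b') = dp c b + dp c b' := by
  unfold dp
  rw [← Finset.sum_add_distrib]
  exact Finset.sum_congr rfl fun i _ => by simp only [Pi.add_apply]; ring

theorem dp_smul (c b : Fin 4 → ℝ) (t : ℝ) : dp c (t • b) = t * dp c b := by
  unfold dp
  rw [Finset.mul_sum]
  exact Finset.sum_congr rfl fun i _ => by simp only [Pi.smul_apply, smul_eq_mul]; ring

theorem dp_sub_left (c d b : Fin 4 → ℝ) (t : ℝ) : dp (fun i => c i - t * d i) b = dp c b - t * dp d b := by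
  unfold dp
  rw [Finset.mul_sum, ← Finset.sum_sub_distrib]
  exact Finset.sum_congr rfl fun i _ => by ring

theorem dp_sub (c b b' : Fin 4 → ℝ) : dp c (b - b') = dp c b - dp c b' := by
  unfold dp
  rw [← Finset.sum_sub_distrib]
  exact Finset.sum_congr rfl fun i _ => by simp only [Pi.sub_apply]; ring

/-- `p` is in the closed convex hull of `B` -/
def InHull (p : Fin 4 → ℝ) (B : Set (Fin 4 → ℝ)) : Prop :=
  ∀ (y : Fin 4 → ℝ) (M : ℝ), (∀ b ∈ B, dp y b ≤ M) → dp y p ≤ M

/-- the values of `L` on `K` are in the closed convex hull of `B` -/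
def Cov {α : Type*} (L : α → Fin 4 → ℝ) (K : Set α) (B : Set (Fin 4 → ℝ)) : Prop :=
  ∀ x ∈ K, InHull (L x) B

theorem InHull.of_mem {p : Fin 4 → ℝ} {B : Set (Fin 4 → ℝ)} (h : p ∈ B) : InHull p B :=
  fun _ _ hb => hb p h

theorem InHull.trans {p : Fin 4 → ℝ} {B B' : Set (Fin 4 → ℝ)} (h : InHull p B) (h' : ∀ b ∈ B, InHull b B') :
    InHull p B' :=
  fun y M hM => h y M fun b hb => h' b hb y M hM

theorem Cov.mono {α : Type*} {L : α → Fin 4 → ℝ} {K : Set α} {B B' : Set (Fin 4 → ℝ)} (h : Cov L K B)
    (h' : ∀ b ∈ B, InHull b B') : Cov L K B' :=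
  fun x hx => (h x hx).trans h'

/-- the point dividing a segment -/
theorem InHull.segment {p q : Fin 4 → ℝ} {B : Set (Fin 4 → ℝ)} (hp : InHull p B) (hq : InHull q B) {s t : ℝ}
    (hs : 0 ≤ s) (ht : 0 ≤ t) (hst : s + t = 1) : InHull (s • p + t • q) B := by
  intro y M hM
  rw [dp_add, dp_smul, dp_smul]
  have h1 := hp y M hM
  have h2 := hq y M hM
  calc s * dp y p + t * dp y q ≤ s * M + t * M :=
        add_le_add (mul_le_mul_of_nonneg_left h1 hs) (mul_le_mul_of_nonneg_left h2 ht)
    _ = M := by rw [← add_mul, hst, one_mul]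

/-- the standard simplex -/
theorem cov_simplex {α : Type*} (L : α → Fin 4 → ℝ) (K : Set α) (h0 : ∀ x ∈ K, ∀ i, 0 ≤ L x i)
    (h1 : ∀ x ∈ K, ∑ i, L x i = 1) : Cov L K {b | ∃ i, b = Pi.single i 1} := by
  intro x hx y M hM
  have h2 : ∀ i, y i ≤ M := by
    intro i
    have h3 := hM (Pi.single i 1) ⟨i, rfl⟩
    have h4 : dp y (Pi.single i 1) = y i := by
      unfold dp
      rw [Finset.sum_eq_single i]
      · simp
      · intro j _ hj
        simp [hj]
      · intro h
        exact absurd (Finset.mem_univ i) h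
    rwa [h4] at h3
  calc dp y (L x) ≤ ∑ i, M * L x i :=
        Finset.sum_le_sum fun i _ => mul_le_mul_of_nonneg_right (h2 i) (h0 x hx i)
    _ = M := by rw [← Finset.mul_sum, h1 x hx, mul_one]

/-- **Cutting.**  `B'` must contain in its hull the points of `B` with `c · b ≤ h`, and for every outer point `b` and
every inner point `b'` some point of the segment beyond the cutting plane. -/
theorem Cov.cut {α : Type*} {L : α → Fin 4 → ℝ} {K : Set α} {B B' : Set (Fin 4 → ℝ)} (hB : B.Finite)
    (hcov : Cov L K B) (c : Fin 4 → ℝ) (h : ℝ) (hc : ∀ x ∈ K, dp c (L x) ≤ h)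
    (hkeep : ∀ b ∈ B, dp c b ≤ h → InHull b B')
    (hcross : ∀ b ∈ B, ∀ b' ∈ B, h < dp c b → dp c b' ≤ h →
      ∃ s t : ℝ, 0 ≤ s ∧ 0 ≤ t ∧ s + t = 1 ∧ h ≤ s * dp c b + t * dp c b' ∧ InHull (s • b + t • b') B') :
    Cov L K B' := by
  classical
  intro x hx y M hM
  -- the multiplier
  have hτ : ∃ τ : ℝ, 0 ≤ τ ∧ ∀ b ∈ B, dp y b ≤ M + τ * (dp c b - h) := by
    by_cases hall : ∀ b ∈ B, h < dp c b → dp y b ≤ M
    · refine ⟨0, le_rfl, fun b hb => ?_⟩
      rw [zero_mul, add_zero]
      rcases lt_or_ge h (dp c b) with h1 | h1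
      · exact hall b hb h1
      · exact hkeep b hb h1 y M hM
    · push Not at hall
      obtain ⟨b0, hb0, hb0h, hb0M⟩ := hall
      -- the maximal slope
      have hfin : (hB.toFinset.filter fun b => h < dp c b).Nonempty :=
        ⟨b0, Finset.mem_filter.mpr ⟨hB.mem_toFinset.mpr hb0, hb0h⟩⟩
      obtain ⟨b1, hb1, hmax⟩ := Finset.exists_max_image _ (fun b => (dp y b - M) / (dp c b - h)) hfin
      rw [Finset.mem_filter, hB.mem_toFinset] at hb1
      obtain ⟨τ, hτdef⟩ : ∃ τ : ℝ, τ = (dp y b1 - M) / (dp c b1 - h) := ⟨_, rfl⟩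
      have hpos1 : 0 < dp c b1 - h := by linarith [hb1.2]
      have hτ1 : τ * (dp c b1 - h) = dp y b1 - M := by
        rw [hτdef]
        exact div_mul_cancel₀ _ hpos1.ne'
      have hτpos : 0 < τ := by
        have h1 := hmax b0 (Finset.mem_filter.mpr ⟨hB.mem_toFinset.mpr hb0, hb0h⟩)
        have h2 : 0 < (dp y b0 - M) / (dp c b0 - h) := div_pos (by linarith) (by linarith)
        rw [hτdef]
        exact lt_of_lt_of_le h2 h1
      refine ⟨τ, hτpos.le, fun b hb => ?_⟩
      rcases lt_or_ge h (dp c b) with h1 | h1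
      · have h2 := hmax b (Finset.mem_filter.mpr ⟨hB.mem_toFinset.mpr hb, h1⟩)
        have hpos : 0 < dp c b - h := by linarith
        rw [← hτdef, div_le_iff₀ hpos] at h2
        linarith
      · obtain ⟨s, t, hs, ht, hst, hge, hin⟩ := hcross b1 hb1.1 b hb hb1.2 h1
        have h3 := hin y M hM
        rw [dp_add, dp_smul, dp_smul] at h3
        -- s > 0
        have ht1 : t = 1 - s := by linarith
        have e1 : h ≤ h + s * (dp c b1 - h) + t * (dp c b - h) := by
          rw [ht1] at hge ⊢
          linarith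
        have e2 : s * (dp y b1 - M) + t * (dp y b - M) ≤ 0 := by
          rw [ht1] at h3 ⊢
          linarith
        have e3 : 0 ≤ s * (dp c b1 - h) + t * (dp c b - h) := by linarith
        rcases ht.eq_or_lt with ht0 | htpos
        · -- t = 0: then s = 1 and y b1 ≤ M, contradiction
          rw [← ht0] at e2
          have hs1 : s = 1 := by linarith
          rw [hs1] at e2
          have : 0 < dp y b1 - M := by
            rw [← hτ1]
            exact mul_pos hτpos hpos1
          linarith
        · have e4 : t * (dp y b - M) ≤ t * (τ * (dp c b - h)) := by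
            have e5 : s * (dp y b1 - M) = τ * (s * (dp c b1 - h)) := by
              rw [← hτ1]
              ring
            have e6 : τ * (s * (dp c b1 - h) + t * (dp c b - h)) ≥ 0 := mul_nonneg hτpos.le e3
            have e7 : τ * (s * (dp c b1 - h) + t * (dp c b - h)) =
                s * (dp y b1 - M) + t * (τ * (dp c b - h)) := by
              rw [e5]
              ring
            linarith
          have e8 := le_of_mul_le_mul_left e4 htpos
          linarith
  obtain ⟨τ, hτ0, hτ⟩ := hτ
  have h1 := hcov x hx (fun i => y i - τ * c i) (M - τ * h) (fun b hb => by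
    rw [dp_sub_left]
    have := hτ b hb
    linarith)
  rw [dp_sub_left] at h1
  have h2 := mul_le_mul_of_nonneg_left (hc x hx) hτ0
  linarith

/-- the spread of a functional on `K` -/
theorem Cov.spread {α : Type*} {L : α → Fin 4 → ℝ} {K : Set α} {B : Set (Fin 4 → ℝ)} (hcov : Cov L K B)
    (y : Fin 4 → ℝ) (R : ℝ) (hR : ∀ b ∈ B, ∀ b' ∈ B, dp y (b - b') ≤ R) (hB : B.Finite) {x x' : α} (hx : x ∈ K)
    (hx' : x' ∈ K) : dp y (L x - L x') ≤ R := by
  classical
  by_cases hne : B.Nonempty
  · obtain ⟨b1, hb1, hmax⟩ := hB.toFinset.exists_max_image (fun b => dp y b)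
      ⟨hne.some, hB.mem_toFinset.mpr hne.some_mem⟩
    obtain ⟨b2, hb2, hmin⟩ := hB.toFinset.exists_min_image (fun b => dp y b)
      ⟨hne.some, hB.mem_toFinset.mpr hne.some_mem⟩
    rw [hB.mem_toFinset] at hb1 hb2
    have h1 := hcov x hx y (dp y b1) fun b hb => hmax b (hB.mem_toFinset.mpr hb)
    have hneg : ∀ b, dp (fun i => -y i) b = -dp y b := by
      intro b
      unfold dp
      rw [← Finset.sum_neg_distrib]
      exact Finset.sum_congr rfl fun i _ => by ring
    have h2 := hcov x' hx' (fun i => -y i) (-dp y b2) (fun b hb => by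
      rw [hneg]
      exact neg_le_neg (hmin b (hB.mem_toFinset.mpr hb)))
    rw [hneg] at h2
    have h3 := hR b1 hb1 b2 hb2
    rw [dp_sub] at h3 ⊢
    linarith
  · rw [Set.not_nonempty_iff_eq_empty] at hne
    -- an empty hull: `K` would be empty
    exfalso
    have h1 := hcov x hx (fun _ => 0) (-1) (fun b hb => by rw [hne] at hb; exact absurd hb (Set.notMem_empty b))
    unfold dp at h1
    simp only [zero_mul, Finset.sum_const_zero] at h1
    linarith

end Pool.Agent.Helper20.CUT
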