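import Pool.Agent.Helper46.GM.Moves
import Pool.Agent.Helper20.CUT.Hull

/-!
# Cuts at lattice points

`Strict K`: compact convex with interior and without any lattice point, also on the boundary.  Every lattice point
gives a cutting plane with exactly one vanishing coefficient and largest coefficient one.
-/

set_option autoImplicit false

namespace Pool.Agent.Helper20.CUT

open Matrix Pool.Agent.Helper12.LW Pool.Agent.Helper46.GM

/-- a convex body without lattice points -/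
structure Strict (K : Set (Fin 3 → ℝ)) : Prop extends LFree K where
  out : ∀ z : Fin 3 → ℤ, toR z ∉ K

/-- the homothetic copies of a lattice-free body with centre in the interior and factor below one are strict -/
theorem strict_homothety {K : Set (Fin 3 → ℝ)} (hK : LFree K) {c : Fin 3 → ℝ} (hc : c ∈ interior K) {t : ℝ}
    (ht0 : 0 < t) (ht1 : t < 1) : Strict ((fun x => c + t • (x - c)) '' K) ∧
      (fun x => c + t • (x - c)) '' K ⊆ interior K := by
  have hmap : ∀ x, c + t • (x - c) = (1 - t) • c + t • x := by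
    intro x
    rw [smul_sub, sub_smul, one_smul]
    abel
  have hsub : (fun x => c + t • (x - c)) '' K ⊆ interior K := by
    rintro _ ⟨x, hx, rfl⟩
    show c + t • (x - c) ∈ interior K
    rw [hmap]
    exact hK.convex.combo_interior_self_mem_interior hc hx (by linarith) ht0.le (by ring)
  have hcont : Continuous fun x : Fin 3 → ℝ => c + t • (x - c) := by fun_prop
  refine ⟨?_, hsub⟩
  refine { compact := hK.compact.image hcont, convex := ?_, interior_nonempty := ?_, free := ?_, out := ?_ }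
  · rintro _ ⟨x, hx, rfl⟩ _ ⟨y, hy, rfl⟩ a b ha hb hab
    refine ⟨a • x + b • y, hK.convex hx hy ha hb hab, ?_⟩
    show c + t • (a • x + b • y - c) = a • (c + t • (x - c)) + b • (c + t • (y - c))
    funext i
    simp only [Pi.add_apply, Pi.smul_apply, Pi.sub_apply, smul_eq_mul]
    have hb' : b = 1 - a := by linarith
    rw [hb']
    ring
  · obtain ⟨x0, hx0⟩ := hK.interior_nonempty
    refine ⟨c + t • (x0 - c), ?_⟩
    rw [mem_interior]
    refine ⟨(fun x => c + t • (x - c)) '' interior K, Set.image_mono interior_subset, ?_, ⟨x0, hx0, rfl⟩⟩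
    -- the image of an open set under a homothety
    have h1 : (fun x : Fin 3 → ℝ => c + t • (x - c)) '' interior K =
        (fun y : Fin 3 → ℝ => c + t⁻¹ • (y - c)) ⁻¹' interior K := by
      ext y
      constructor
      · rintro ⟨x, hx, rfl⟩
        show c + t⁻¹ • (c + t • (x - c) - c) ∈ interior K
        rw [add_sub_cancel_left, smul_smul, inv_mul_cancel₀ ht0.ne', one_smul, add_sub_cancel]
        exact hx
      · intro hy
        refine ⟨c + t⁻¹ • (y - c), hy, ?_⟩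
        show c + t • (c + t⁻¹ • (y - c) - c) = y
        rw [add_sub_cancel_left, smul_smul, mul_inv_cancel₀ ht0.ne', one_smul, add_sub_cancel]
    rw [h1]
    exact isOpen_interior.preimage (by fun_prop)
  · intro z hz
    exact hK.free z (hsub (interior_subset hz))
  · intro z hz
    exact hK.free z (hsub hz)

/-- the functional values of the coordinates -/
theorem sum_LL {P : Fin 4 → Fin 3 → ℤ} {v : Fin 4 → Fin 3 → ℝ} (d : Fin 4 → ℝ) (x : Fin 3 → ℝ) :
    ∑ i, d i * LL P v i x = ∑ i, d i * (v i ⬝ᵥ toR (P i)) - (∑ i, d i • v i) ⬝ᵥ x := by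
  unfold LL
  rw [sum_dotProduct, ← Finset.sum_sub_distrib]
  refine Finset.sum_congr rfl fun i _ => ?_
  rw [dotProduct_sub, smul_dotProduct, smul_eq_mul]
  ring

/-- avoiding finitely many coincidences -/
theorem exists_distinct (d : Fin 4 → ℝ) (r : ℝ) (hr : 0 < r) :
    ∃ ε : ℝ, 0 < ε ∧ ε < r ∧ ∀ i j : Fin 4, i ≠ j → d i + ε * (i : ℕ) ≠ d j + ε * (j : ℕ) := by
  classical
  obtain ⟨S, hS⟩ : ∃ S : Finset ℝ, S = Finset.univ.image fun p : Fin 4 × Fin 4 =>
      (d p.2 - d p.1) / ((p.1 : ℕ) - (p.2 : ℕ) : ℝ) := ⟨_, rfl⟩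
  have hinf : ((Set.Ioo (0 : ℝ) r) \ (S : Set ℝ)).Nonempty :=
    ((Set.Ioo_infinite hr).sdiff S.finite_toSet).nonempty
  obtain ⟨ε, ⟨h0, h1⟩, hnot⟩ := hinf
  refine ⟨ε, h0, h1, fun i j hij heq => hnot ?_⟩
  have hne : ((i : ℕ) : ℝ) - ((j : ℕ) : ℝ) ≠ 0 := by
    intro h
    have h2 : ((i : ℕ) : ℝ) = ((j : ℕ) : ℝ) := by linarith
    exact hij (Fin.ext (by exact_mod_cast h2))
  have hε : ε = (d j - d i) / (((i : ℕ) : ℝ) - ((j : ℕ) : ℝ)) := by
    rw [eq_div_iff hne]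
    linarith
  rw [hS, Finset.mem_coe, hε]
  exact Finset.mem_image_of_mem (fun p : Fin 4 × Fin 4 => (d p.2 - d p.1) / ((p.1 : ℕ) - (p.2 : ℕ) : ℝ))
    (Finset.mem_univ (i, j))

/-- **The cut at a lattice point**, with exactly one vanishing coefficient. -/
theorem exists_cut_strict {K : Set (Fin 3 → ℝ)} {P : Fin 4 → Fin 3 → ℤ} {v : Fin 4 → Fin 3 → ℝ} (hK : Strict K)
    (hS : Sep4 K P v) (hspan : ∀ m : Fin 3 → ℝ, ∃ c : Fin 4 → ℝ, ∑ k, c k • v k = m) (z : Fin 3 → ℤ) :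
    ∃ (i0 i1 : Fin 4) (c : Fin 4 → ℝ), i0 ≠ i1 ∧ c i0 = 0 ∧ c i1 = 1 ∧ (∀ i, i ≠ i0 → 0 < c i) ∧ (∀ i, c i ≤ 1) ∧
      ∀ x ∈ K, ∑ i, c i * LL P v i x < ∑ i, c i * LL P v i (toR z) := by
  obtain ⟨φ, u, hφz, hφ⟩ := geometric_hahn_banach_point_closed hK.convex hK.compact.isClosed (hK.out z)
  have hφn : ∀ x : Fin 3 → ℝ, φ x = (fun k => φ (Pi.single k 1)) ⬝ᵥ x := by
    intro x
    have hx : x = ∑ k, x k • (Pi.single k 1 : Fin 3 → ℝ) := by
      funext i
      simp [Finset.sum_apply, Pi.single_apply]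
    conv_lhs => rw [hx]
    rw [map_sum]
    simp only [map_smul, smul_eq_mul, dotProduct]
    exact Finset.sum_congr rfl fun k _ => mul_comm _ _
  obtain ⟨n, hn⟩ : ∃ n : Fin 3 → ℝ, n = fun k => φ (Pi.single k 1) := ⟨_, rfl⟩
  obtain ⟨d, hd⟩ := hspan n
  -- the gap
  obtain ⟨δ, hδ⟩ : ∃ δ : ℝ, δ = u - φ (toR z) := ⟨_, rfl⟩
  have hδ0 : 0 < δ := by rw [hδ]; linarith
  have hgap : ∀ x ∈ K, ∑ i, d i * LL P v i x + δ < ∑ i, d i * LL P v i (toR z) := by
    intro x hx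
    rw [sum_LL, sum_LL, hd, hn, ← hφn, ← hφn]
    have := hφ x hx
    linarith
  obtain ⟨x0, hx0⟩ := hK.interior_nonempty
  have hx0K := interior_subset hx0
  -- the perturbation
  obtain ⟨C, hC⟩ : ∃ C : ℝ, C = ∑ i : Fin 4, ((i : ℕ) : ℝ) * (|LL P v i (toR z)| + 1) := ⟨_, rfl⟩
  have hC0 : 0 ≤ C := by
    rw [hC]
    exact Finset.sum_nonneg fun i _ => mul_nonneg (Nat.cast_nonneg _) (by positivity)
  obtain ⟨ε, hε0, hε1, hdist⟩ := exists_distinct d (δ / (C + 1)) (by positivity)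
  obtain ⟨d', hd'⟩ : ∃ d' : Fin 4 → ℝ, d' = fun i : Fin 4 => d i + ε * ((i : ℕ) : ℝ) := ⟨_, rfl⟩
  have hle1 : ∀ x ∈ K, ∀ i, LL P v i x ≤ 1 := by
    intro x hx i
    have h1 := LL_sum hS x
    rw [← h1]
    exact Finset.single_le_sum (f := fun i => LL P v i x) (fun j _ => LL_nonneg hS j hx) (Finset.mem_univ i)
  have hgap' : ∀ x ∈ K, ∑ i, d' i * LL P v i x < ∑ i, d' i * LL P v i (toR z) := by
    intro x hx
    have h1 := hgap x hx
    have h2 : ∀ y, ∑ i, d' i * LL P v i y = ∑ i, d i * LL P v i y + ε * ∑ i : Fin 4, ((i : ℕ) : ℝ) * LL P v i y := by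
      intro y
      rw [hd', Finset.mul_sum, ← Finset.sum_add_distrib]
      exact Finset.sum_congr rfl fun i _ => by ring
    rw [h2, h2]
    have h3 : ∑ i : Fin 4, ((i : ℕ) : ℝ) * LL P v i x - ∑ i : Fin 4, ((i : ℕ) : ℝ) * LL P v i (toR z) ≤ C := by
      rw [hC, ← Finset.sum_sub_distrib]
      refine Finset.sum_le_sum fun i _ => ?_
      rw [← mul_sub]
      refine mul_le_mul_of_nonneg_left ?_ (Nat.cast_nonneg _)
      have h4 := hle1 x hx i
      have h5 := neg_abs_le (LL P v i (toR z))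
      linarith
    have h6 : ε * (C + 1) < δ := by
      rwa [lt_div_iff₀ (by linarith)] at hε1
    have h7 : ε * (∑ i : Fin 4, ((i : ℕ) : ℝ) * LL P v i x - ∑ i : Fin 4, ((i : ℕ) : ℝ) * LL P v i (toR z)) ≤ ε * C :=
      mul_le_mul_of_nonneg_left h3 hε0.le
    nlinarith
  obtain ⟨i0, -, hi0⟩ := Finset.exists_min_image Finset.univ d' ⟨0, Finset.mem_univ _⟩
  obtain ⟨i1, -, hi1⟩ := Finset.exists_max_image Finset.univ d' ⟨0, Finset.mem_univ _⟩
  have hlt : ∀ i, i ≠ i0 → d' i0 < d' i := by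
    intro i hi
    refine lt_of_le_of_ne (hi0 i (Finset.mem_univ i)) ?_
    rw [hd']
    exact hdist i0 i hi.symm
  have hi01 : i0 ≠ i1 := by
    intro h
    have h1 : ∀ i, d' i ≤ d' i0 := fun i => by rw [h]; exact hi1 i (Finset.mem_univ i)
    obtain ⟨j, hj⟩ : ∃ j : Fin 4, j ≠ i0 := exists_ne i0
    linarith [h1 j, hlt j hj]
  have hpos : 0 < d' i1 - d' i0 := by linarith [hlt i1 hi01.symm]
  have hrw : ∀ y : Fin 3 → ℝ, ∑ i, (d' i - d' i0) / (d' i1 - d' i0) * LL P v i y =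
      (∑ i, d' i * LL P v i y - d' i0) / (d' i1 - d' i0) := by
    intro y
    have h3 : ∑ i, (d' i - d' i0) * LL P v i y = ∑ i, d' i * LL P v i y - d' i0 := by
      simp only [sub_mul, Finset.sum_sub_distrib, ← Finset.mul_sum]
      rw [LL_sum hS, mul_one]
    rw [← h3, Finset.sum_div]
    exact Finset.sum_congr rfl fun i _ => by ring
  refine ⟨i0, i1, fun i => (d' i - d' i0) / (d' i1 - d' i0), hi01, ?_, ?_, fun i hi => ?_, fun i => ?_,
    fun x hx => ?_⟩
  · show (d' i0 - d' i0) / (d' i1 - d' i0) = 0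
    rw [sub_self, zero_div]
  · show (d' i1 - d' i0) / (d' i1 - d' i0) = 1
    exact div_self hpos.ne'
  · exact div_pos (by linarith [hlt i hi]) hpos
  · rw [div_le_one hpos]
    linarith [hi1 i (Finset.mem_univ i)]
  · simp only [hrw]
    exact div_lt_div_of_pos_right (by linarith [hgap' x hx]) hpos

/-- the data of a cut at `z` with coefficients in a box -/
def CutIn (K : Set (Fin 3 → ℝ)) (P : Fin 4 → Fin 3 → ℤ) (v : Fin 4 → Fin 3 → ℝ) (z : Fin 3 → ℤ) (i0 i1 : Fin 4)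
    (lo hi : Fin 4 → ℝ) : Prop :=
  ∃ c : Fin 4 → ℝ, c i0 = 0 ∧ c i1 = 1 ∧ (∀ i, i ≠ i0 → 0 < c i) ∧ (∀ i, lo i ≤ c i ∧ c i ≤ hi i) ∧
    ∀ x ∈ K, ∑ i, c i * LL P v i x < ∑ i, c i * LL P v i (toR z)

/-- **the twelve branches of a lattice point** -/
theorem exists_cutIn {K : Set (Fin 3 → ℝ)} {P : Fin 4 → Fin 3 → ℤ} {v : Fin 4 → Fin 3 → ℝ} (hK : Strict K)
    (hS : Sep4 K P v) (hspan : ∀ m : Fin 3 → ℝ, ∃ c : Fin 4 → ℝ, ∑ k, c k • v k = m) (z : Fin 3 → ℤ) :
    ∃ i0 i1 : Fin 4, i0 ≠ i1 ∧ CutIn K P v z i0 i1 (fun i => if i = i1 then 1 else 0)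
      (fun i => if i = i0 then 0 else 1) := by
  obtain ⟨i0, i1, c, h01, h0, h1, hpos, hle, hcut⟩ := exists_cut_strict hK hS hspan z
  refine ⟨i0, i1, h01, c, h0, h1, hpos, fun i => ⟨?_, ?_⟩, hcut⟩
  · show (if i = i1 then (1 : ℝ) else 0) ≤ c i
    split_ifs with h
    · rw [h, h1]
    · by_cases h2 : i = i0
      · rw [h2, h0]
      · exact (hpos i h2).le
  · show c i ≤ (if i = i0 then (0 : ℝ) else 1)
    split_ifs with h
    · rw [h, h0]
    · exact hle i

/-- splitting the box of a cut -/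
theorem CutIn.split {K : Set (Fin 3 → ℝ)} {P : Fin 4 → Fin 3 → ℤ} {v : Fin 4 → Fin 3 → ℝ} {z : Fin 3 → ℤ}
    {i0 i1 : Fin 4} {lo hi : Fin 4 → ℝ} (h : CutIn K P v z i0 i1 lo hi) (j : Fin 4) (m : ℝ) :
    CutIn K P v z i0 i1 lo (Function.update hi j m) ∨ CutIn K P v z i0 i1 (Function.update lo j m) hi := by
  obtain ⟨c, h0, h1, hpos, hbox, hcut⟩ := h
  rcases le_total (c j) m with h2 | h2
  · refine Or.inl ⟨c, h0, h1, hpos, fun i => ⟨(hbox i).1, ?_⟩, hcut⟩
    by_cases hi' : i = j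
    · rw [hi', Function.update_self]
      exact h2
    · rw [Function.update_of_ne hi']
      exact (hbox i).2
  · refine Or.inr ⟨c, h0, h1, hpos, fun i => ⟨?_, (hbox i).2⟩, hcut⟩
    by_cases hi' : i = j
    · rw [hi', Function.update_self]
      exact h2
    · rw [Function.update_of_ne hi']
      exact (hbox i).1

/-- **the half-space of a cut with coefficients in a box**: `∑ lo i * L i x ≤ h`. -/
theorem CutIn.half {K : Set (Fin 3 → ℝ)} {P : Fin 4 → Fin 3 → ℤ} {v : Fin 4 → Fin 3 → ℝ} {z : Fin 3 → ℤ}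
    {i0 i1 : Fin 4} {lo hi : Fin 4 → ℝ} (hS : Sep4 K P v) (h : CutIn K P v z i0 i1 lo hi) (w : Fin 4 → ℝ)
    (hw : ∀ i, lo i * LL P v i (toR z) ≤ w i) (hw' : ∀ i, hi i * LL P v i (toR z) ≤ w i) :
    ∀ x ∈ K, dp lo (fun i => LL P v i x) ≤ ∑ i, w i := by
  obtain ⟨c, -, -, -, hbox, hcut⟩ := h
  intro x hx
  have h1 : dp lo (fun i => LL P v i x) ≤ ∑ i, c i * LL P v i x :=
    Finset.sum_le_sum fun i _ => mul_le_mul_of_nonneg_right (hbox i).1 (LL_nonneg hS i hx)
  have h2 : ∑ i, c i * LL P v i (toR z) ≤ ∑ i, w i := by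
    refine Finset.sum_le_sum fun i _ => ?_
    rcases le_total 0 (LL P v i (toR z)) with h3 | h3
    · exact (mul_le_mul_of_nonneg_right (hbox i).2 h3).trans (hw' i)
    · exact (mul_le_mul_of_nonpos_right (hbox i).1 h3).trans (hw i)
  exact h1.trans ((hcut x hx).le.trans h2)

/-- the simplex -/
theorem cov_sep {K : Set (Fin 3 → ℝ)} {P : Fin 4 → Fin 3 → ℤ} {v : Fin 4 → Fin 3 → ℝ} (hS : Sep4 K P v) :
    Cov (fun x i => LL P v i x) K {b | ∃ i, b = Pi.single i 1} :=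
  cov_simplex _ K (fun _ hx i => LL_nonneg hS i hx) (fun x _ => LL_sum hS x)

end Pool.Agent.Helper20.CUT
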