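import Pool.Agent.Helper82.TET.MChain
import Pool.Agent.Helper20.CUT.Branch

/-!
# The circuit through a cut point

If the coefficient of `P i0` in the lattice point `z` is `1` or `-1` then the cut at `z` together with the three
separators of the other points is again a system.  If it is of type M in some order then `K` has width at most
`2 + √2`.
-/

set_option autoImplicit false

namespace Pool.Agent.Helper20.CUT

open Matrix Pool.Agent.Helper12.LW Pool.Agent.Helper46.GM Pool.Agent.Helper84.FL Pool.Agent.Helper82.TET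

theorem pz_eq (n : Fin 3 → ℝ) (z : Fin 3 → ℤ) : pz n z = n ⬝ᵥ toR z := rfl

theorem pr_eq (n x : Fin 3 → ℝ) : pr n x = n ⬝ᵥ x := rfl

/-- the four cyclic steps of four points -/
def stp (P : Fin 4 → Fin 3 → ℤ) (k : Fin 4) : Fin 3 → ℤ := P (k + 1) - P k

theorem stp_sum (P : Fin 4 → Fin 3 → ℤ) : ∑ k, stp P k = 0 := by
  unfold stp
  rw [Finset.sum_sub_distrib, sub_eq_zero]
  exact Equiv.sum_comp (Equiv.addRight (1 : Fin 4)) P

theorem stp_point (P : Fin 4 → Fin 3 → ℤ) (k : Fin 4) : P k = P 0 + ∑ l, wk k l • stp P l :=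
  point_wk (stp P) P (fun k => by unfold stp; abel) k

/-- a combination of the points with sum of coefficients zero is a combination of the steps -/
theorem comb_steps (P : Fin 4 → Fin 3 → ℤ) (e : Fin 4 → ℤ) (he : ∑ j, e j = 0) :
    ∃ b : Fin 4 → ℤ, ∑ j, e j • P j = ∑ l, b l • stp P l := by
  refine ⟨fun l => ∑ j, e j * wk j l, ?_⟩
  calc ∑ j, e j • P j = ∑ j, e j • (P 0 + ∑ l, wk j l • stp P l) :=
        Finset.sum_congr rfl fun j _ => by rw [← stp_point P j]
    _ = ∑ j, e j • P 0 + ∑ j, e j • ∑ l, wk j l • stp P l := by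
        rw [← Finset.sum_add_distrib]
        exact Finset.sum_congr rfl fun j _ => by rw [smul_add]
    _ = ∑ j, ∑ l, (e j * wk j l) • stp P l := by
        rw [← Finset.sum_smul, he, zero_smul, zero_add]
        refine Finset.sum_congr rfl fun j _ => ?_
        rw [Finset.smul_sum]
        exact Finset.sum_congr rfl fun l _ => by rw [smul_smul]
    _ = ∑ l, (∑ j, e j * wk j l) • stp P l := by
        rw [Finset.sum_comm]
        exact Finset.sum_congr rfl fun l _ => by rw [Finset.sum_smul]

/-- **change of the four points**: if the points `P` are affine integer combinations of the points `P'` and the steps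
of `P` are a superbase then so are the steps of `P'`. -/
theorem superbase_points {P P' : Fin 4 → Fin 3 → ℤ} (hP : Superbase (stp P)) (a : Fin 4 → Fin 4 → ℤ)
    (ha : ∀ k, ∑ j, a k j = 1) (haP : ∀ k, P k = ∑ j, a k j • P' j) : Superbase (stp P') := by
  refine ⟨stp_sum P', fun z => ?_⟩
  obtain ⟨b, hb⟩ := hP.span z
  have h1 : z = ∑ j, (∑ l, b l * (a (l + 1) j - a l j)) • P' j := by
    rw [hb]
    calc ∑ l, b l • stp P l = ∑ l, b l • ∑ j, (a (l + 1) j - a l j) • P' j := by
          refine Finset.sum_congr rfl fun l _ => ?_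
          congr 1
          unfold stp
          rw [haP (l + 1), haP l, ← Finset.sum_sub_distrib]
          exact Finset.sum_congr rfl fun j _ => by rw [sub_smul]
      _ = ∑ l, ∑ j, (b l * (a (l + 1) j - a l j)) • P' j := by
          refine Finset.sum_congr rfl fun l _ => ?_
          rw [Finset.smul_sum]
          exact Finset.sum_congr rfl fun j _ => by rw [smul_smul]
      _ = ∑ j, (∑ l, b l * (a (l + 1) j - a l j)) • P' j := by
          rw [Finset.sum_comm]
          exact Finset.sum_congr rfl fun j _ => by rw [Finset.sum_smul]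
  have h2 : ∑ j, ∑ l, b l * (a (l + 1) j - a l j) = 0 := by
    rw [Finset.sum_comm]
    refine Finset.sum_eq_zero fun l _ => ?_
    rw [← Finset.mul_sum, Finset.sum_sub_distrib, ha, ha, sub_self, mul_zero]
  obtain ⟨b', hb'⟩ := comb_steps P' _ h2
  exact ⟨b', by rw [h1, hb']⟩

/-- a permutation of the points -/
theorem superbase_perm {P : Fin 4 → Fin 3 → ℤ} (hP : Superbase (stp P)) (τ : Equiv.Perm (Fin 4)) :
    Superbase (stp fun k => P (τ k)) := by
  refine superbase_points hP (fun k j => if τ j = k then 1 else 0) (fun k => ?_) (fun k => ?_)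
  · rw [Finset.sum_eq_single (τ.symm k)]
    · simp
    · intro j _ hj
      rw [if_neg]
      intro h
      exact hj (by rw [← h, Equiv.symm_apply_apply])
    · intro h
      exact absurd (Finset.mem_univ _) h
  · rw [Finset.sum_eq_single (τ.symm k)]
    · simp
    · intro j _ hj
      rw [if_neg, zero_smul]
      intro h
      exact hj (by rw [← h, Equiv.symm_apply_apply])
    · intro h
      exact absurd (Finset.mem_univ _) h

/-- replacing the point `i0` by a lattice point with coefficient `1` or `-1` -/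
theorem superbase_update {P : Fin 4 → Fin 3 → ℤ} (hP : Superbase (stp P)) (i0 : Fin 4) (m : Fin 4 → ℤ)
    (hm : ∑ k, m k = 1) (hu : m i0 * m i0 = 1) (z : Fin 3 → ℤ) (hz : z = ∑ k, m k • P k) :
    Superbase (stp (Function.update P i0 z)) := by
  classical
  refine superbase_points hP (fun k j => if k = i0 then (if j = i0 then m i0 else -m i0 * m j)
    else (if j = k then 1 else 0)) (fun k => ?_) (fun k => ?_)
  · by_cases hk : k = i0
    · simp only [if_pos hk]
      rw [← Finset.add_sum_erase _ _ (Finset.mem_univ i0), if_pos rfl]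
      have h1 : ∑ j ∈ Finset.univ.erase i0, (if j = i0 then m i0 else -m i0 * m j) =
          -m i0 * ∑ j ∈ Finset.univ.erase i0, m j := by
        rw [Finset.mul_sum]
        exact Finset.sum_congr rfl fun j hj => by rw [if_neg (Finset.ne_of_mem_erase hj)]
      have h2 : ∑ j ∈ Finset.univ.erase i0, m j = 1 - m i0 := by
        rw [← hm, ← Finset.add_sum_erase _ _ (Finset.mem_univ i0)]
        ring
      rw [h1, h2]
      linarith
    · simp [if_neg hk]
  · by_cases hk : k = i0
    · simp only [if_pos hk]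
      rw [← Finset.add_sum_erase _ _ (Finset.mem_univ i0), if_pos rfl, Function.update_self]
      have h1 : ∑ j ∈ Finset.univ.erase i0,
          (if j = i0 then m i0 else -m i0 * m j) • (Function.update P i0 z) j =
          (-m i0) • ∑ j ∈ Finset.univ.erase i0, m j • P j := by
        rw [Finset.smul_sum]
        refine Finset.sum_congr rfl fun j hj => ?_
        have hj' := Finset.ne_of_mem_erase hj
        rw [if_neg hj', Function.update_of_ne hj', smul_smul]
      have h2 : ∑ j ∈ Finset.univ.erase i0, m j • P j = z - m i0 • P i0 := by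
        rw [hz, ← Finset.add_sum_erase _ _ (Finset.mem_univ i0)]
        abel
      rw [h1, h2, smul_sub, smul_smul, hk]
      have h3 : -m i0 * m i0 = -1 := by linarith
      rw [h3]
      simp
    · simp only [if_neg hk]
      rw [Finset.sum_eq_single k]
      · rw [if_pos rfl, one_smul, Function.update_of_ne hk]
      · intro j _ hj
        rw [if_neg hj, zero_smul]
      · intro h
        exact absurd (Finset.mem_univ _) h

/-- the separators of the circuit through `z` -/
def cv (v : Fin 4 → Fin 3 → ℝ) (c : Fin 4 → ℝ) (i0 : Fin 4) (j : Fin 4) : Fin 3 → ℝ :=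
  c j • v j - if j = i0 then ∑ l, c l • v l else 0

/-- the values of the coordinates of the circuit, not normalised: `h = ∑ c l * L l z` -/
noncomputable def cL (P : Fin 4 → Fin 3 → ℤ) (v : Fin 4 → Fin 3 → ℝ) (c : Fin 4 → ℝ) (z : Fin 3 → ℤ) (i0 : Fin 4)
    (j : Fin 4) (x : Fin 3 → ℝ) : ℝ :=
  if j = i0 then ∑ l, c l * LL P v l (toR z) - ∑ l, c l * LL P v l x else c j * LL P v j x

theorem cL_diff (P : Fin 4 → Fin 3 → ℤ) (v : Fin 4 → Fin 3 → ℝ) (c : Fin 4 → ℝ) (z : Fin 3 → ℤ) (i0 : Fin 4)
    (hc0 : c i0 = 0) (j : Fin 4) (x x' : Fin 3 → ℝ) :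
    cL P v c z i0 j x' - cL P v c z i0 j x = cv v c i0 j ⬝ᵥ x - cv v c i0 j ⬝ᵥ x' := by
  unfold cL cv
  by_cases hj : j = i0
  · rw [if_pos hj, if_pos hj, if_pos hj, hj, hc0, zero_smul, zero_sub, neg_dotProduct, neg_dotProduct, sum_LL,
      sum_LL, sum_LL]
    ring
  · rw [if_neg hj, if_neg hj, if_neg hj, sub_zero, smul_dotProduct, smul_dotProduct]
    unfold LL
    rw [dotProduct_sub, dotProduct_sub, smul_eq_mul, smul_eq_mul]
    ring

/-- four spanning vectors with sum zero have no other relation -/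
theorem rel_const (v : Fin 4 → Fin 3 → ℝ) (hs : ∑ k, v k = 0)
    (hspan : ∀ m : Fin 3 → ℝ, ∃ c : Fin 4 → ℝ, ∑ k, c k • v k = m) (a : Fin 4 → ℝ)
    (ha : ∑ k, a k • v k = 0) (i j : Fin 4) : a i = a j := by
  obtain ⟨T, hT⟩ : ∃ T : (Fin 4 → ℝ) →ₗ[ℝ] (Fin 3 → ℝ), ∀ b, T b = ∑ k, b k • v k :=
    ⟨Fintype.linearCombination ℝ v, fun b => Fintype.linearCombination_apply ℝ v b⟩
  have hr : LinearMap.range T = ⊤ := LinearMap.range_eq_top.mpr fun m => by
    obtain ⟨c, hc⟩ := hspan m
    exact ⟨c, by rw [hT, hc]⟩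
  have h1 := LinearMap.finrank_range_add_finrank_ker T
  rw [hr, finrank_top, Module.finrank_fintype_fun_eq_card, Module.finrank_fintype_fun_eq_card, Fintype.card_fin,
    Fintype.card_fin] at h1
  have h2 : Module.finrank ℝ (LinearMap.ker T) = 1 := by omega
  obtain ⟨w, -, hall⟩ := finrank_eq_one_iff'.mp h2
  obtain ⟨s, hs'⟩ := hall ⟨fun _ => 1, by rw [LinearMap.mem_ker, hT]; simpa using hs⟩
  obtain ⟨t, ht⟩ := hall ⟨a, by rw [LinearMap.mem_ker, hT]; exact ha⟩
  have e1 : ∀ k, s * (w : Fin 4 → ℝ) k = 1 := fun k => by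
    have := congrFun (congrArg Subtype.val hs') k
    simpa using this
  have e2 : ∀ k, t * (w : Fin 4 → ℝ) k = a k := fun k => by
    have := congrFun (congrArg Subtype.val ht) k
    simpa using this
  have hs0 : s ≠ 0 := by
    intro h
    have := e1 0
    rw [h, zero_mul] at this
    exact zero_ne_one this
  have e3 : (w : Fin 4 → ℝ) i = (w : Fin 4 → ℝ) j := mul_left_cancel₀ hs0 ((e1 i).trans (e1 j).symm)
  rw [← e2 i, ← e2 j, e3]

/-- **M-type circuit through a cut point.** -/
theorem mcut {K : Set (Fin 3 → ℝ)} {P : Fin 4 → Fin 3 → ℤ} {v : Fin 4 → Fin 3 → ℝ} (hK : IsCompact K)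
    (hP : Superbase (stp P)) (hS : Sep4 K P v) (hspan : ∀ m : Fin 3 → ℝ, ∃ c : Fin 4 → ℝ, ∑ k, c k • v k = m)
    (m : Fin 4 → ℤ) (hm : ∑ k, m k = 1) (z : Fin 3 → ℤ) (hz : z = ∑ k, m k • P k) (i0 : Fin 4)
    (hu : m i0 * m i0 = 1) (c : Fin 4 → ℝ) (hc0 : c i0 = 0) (hcpos : ∀ i, i ≠ i0 → 0 < c i)
    (hcut : ∀ x ∈ K, ∑ i, c i * LL P v i x ≤ ∑ i, c i * LL P v i (toR z))
    (τ : Equiv.Perm (Fin 4)) (pos : Fin 4 → Fin 4)
    (hpos : ∀ k l, l ≠ pos k →
      cL P v c z i0 (τ k) (toR (Function.update P i0 z (τ (l + 1)))) ≤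
        cL P v c z i0 (τ k) (toR (Function.update P i0 z (τ l)))) :
    WidthLe K (2 + Real.sqrt 2) := by
  classical
  obtain ⟨P', hP'⟩ : ∃ P', P' = Function.update P i0 z := ⟨_, rfl⟩
  have hsb : Superbase (stp fun k => P' (τ k)) := by
    rw [hP']
    exact superbase_perm (superbase_update hP i0 m hm hu z hz) τ
  have hsum : ∑ j, cv v c i0 j = 0 := by
    unfold cv
    rw [Finset.sum_sub_distrib, Finset.sum_ite_eq' Finset.univ i0, if_pos (Finset.mem_univ i0), sub_self]
  -- the span of the new separators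
  have hspan' : ∀ w : Fin 3 → ℝ, ∃ b : Fin 4 → ℝ, ∑ k, b k • cv v c i0 k = w := by
    intro w
    obtain ⟨b, hb⟩ := hspan w
    -- use `∑ v = 0` to remove the coefficient of `v i0`
    refine ⟨fun k => if k = i0 then 0 else (b k - b i0) / c k, ?_⟩
    have h1 : ∀ k, (if k = i0 then (0 : ℝ) else (b k - b i0) / c k) • cv v c i0 k = (b k - b i0) • v k := by
      intro k
      by_cases hk : k = i0
      · rw [if_pos hk, zero_smul, hk, sub_self, zero_smul]
      · rw [if_neg hk]
        unfold cv
        rw [if_neg hk, sub_zero, smul_smul, div_mul_cancel₀ _ (hcpos k hk).ne']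
    rw [Finset.sum_congr rfl fun k _ => h1 k]
    simp only [sub_smul, Finset.sum_sub_distrib, ← Finset.smul_sum]
    rw [hb, hS.sum_zero, smul_zero, sub_zero]
  -- all the new separators are nonzero
  have hg0 : ∀ j, cv v c i0 j ≠ 0 := by
    intro j h0
    by_cases hj : j = i0
    · rw [hj] at h0
      unfold cv at h0
      rw [if_pos rfl, hc0, zero_smul, zero_sub, neg_eq_zero] at h0
      obtain ⟨k, hk⟩ : ∃ k : Fin 4, k ≠ i0 := exists_ne i0
      have h1 := rel_const v hS.sum_zero hspan c h0 k i0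
      rw [hc0] at h1
      exact (hcpos k hk).ne' h1
    · unfold cv at h0
      rw [if_neg hj, sub_zero] at h0
      have h1 : v j = 0 := (smul_eq_zero.mp h0).resolve_left (hcpos j hj).ne'
      have h2 : ∑ k, (Pi.single j (1 : ℝ) : Fin 4 → ℝ) k • v k = 0 := by
        rw [Finset.sum_eq_single j]
        · rw [h1, smul_zero]
        · intro k _ hk
          rw [Pi.single_eq_of_ne hk, zero_smul]
        · intro h
          exact absurd (Finset.mem_univ _) h
      obtain ⟨k, hk⟩ : ∃ k : Fin 4, k ≠ j := exists_ne j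
      have h3 := rel_const v hS.sum_zero hspan _ h2 k j
      rw [Pi.single_eq_same, Pi.single_eq_of_ne hk] at h3
      exact zero_ne_one h3
  refine chain_width (stp fun k => P' (τ k)) hsb (fun k => P' (τ k)) (fun k => by unfold stp; abel)
    (fun k => cv v c i0 (τ k)) (fun k => hg0 _) ?_ ?_ K hK.isBounded ?_ pos ?_
  · rw [← hsum]
    exact Equiv.sum_comp τ (cv v c i0)
  · intro w
    obtain ⟨b, hb⟩ := hspan' w
    refine ⟨fun k => b (τ k), ?_⟩
    rw [← hb]
    exact Equiv.sum_comp τ fun k => b k • cv v c i0 k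
  · intro k x hx
    show pr (cv v c i0 (τ k)) x ≤ pz (cv v c i0 (τ k)) (P' (τ k))
    rw [pr_eq, pz_eq]
    have h1 := cL_diff P v c z i0 hc0 (τ k) x (toR (P' (τ k)))
    have h2 : cL P v c z i0 (τ k) (toR (P' (τ k))) = 0 := by
      unfold cL
      by_cases hk : τ k = i0
      · rw [if_pos hk, hP', hk, Function.update_self, sub_self]
      · rw [if_neg hk, hP', Function.update_of_ne hk]
        unfold LL
        rw [sub_self, dotProduct_zero, mul_zero]
    have h3 : 0 ≤ cL P v c z i0 (τ k) x := by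
      unfold cL
      by_cases hk : τ k = i0
      · rw [if_pos hk]
        linarith [hcut x hx]
      · rw [if_neg hk]
        exact mul_nonneg (hcpos _ hk).le (LL_nonneg hS _ hx)
    linarith
  · intro k l hl
    show 0 ≤ pz (cv v c i0 (τ k)) (stp (fun k => P' (τ k)) l)
    have h1 := hpos k l hl
    have h2 := cL_diff P v c z i0 hc0 (τ k) (toR (P' (τ (l + 1)))) (toR (P' (τ l)))
    rw [pz_eq]
    unfold stp
    rw [toR_sub, dotProduct_sub]
    rw [← hP'] at h1
    linarith

end Pool.Agent.Helper20.CUT
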